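import Pool.Agent.TH158.FM.Rng
import Pool.Agent.TH692.FM2.Norm3
import Pool.Agent.TH692.FM2.Range2

set_option autoImplicit false

/-!
# MP_3d0d30_nt: Q2 for every height `T`, orders near the fourth moment

`M_k(T) = ∫_0^T |ζ(1/2 + it)|^{2k} dt`. The inequality `M_k(T) < T (log T)^{k²}` of Q2 holds for
EVERY `T ≥ 1000` and every real `k` with `2 ≤ k ≤ 2 + 7 / (5 log T)`; in particular for `k = 2`
and every `T ≥ 1000`.
-/

namespace Pool.Agent.Results.MP_3d0d30_nt.AllHeightsNearTwo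

open Complex Pool.Agent.TH158.FM

/-- `M_k(T) = ∫_0^T |ζ(1/2 + it)|^{2k} dt` -/
noncomputable def M (k T : ℝ) : ℝ := ∫ t in (0:ℝ)..T, ‖riemannZeta (1 / 2 + t * I)‖ ^ (2 * k)

lemma M_eq (k T : ℝ) : M k T = MM k T := by
  unfold M MM
  congr 1
  funext t
  rw [pt_half]

lemma exp_seven_tenths : Real.exp (7 / 10) ≤ 208 / 100 := by
  have he := Real.exp_one_lt_d9
  have h1 : Real.exp (7 / 10) ^ 10 ≤ (208 / 100 : ℝ) ^ 10 := by
    rw [← Real.exp_nat_mul]
    have : ((10 : ℕ) : ℝ) * (7 / 10) = ((7 : ℕ) : ℝ) * 1 := by norm_num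
    rw [this, Real.exp_nat_mul]
    calc Real.exp 1 ^ 7 ≤ 2.7182818286 ^ 7 := by gcongr
      _ ≤ (208 / 100 : ℝ) ^ 10 := by norm_num
  exact le_of_pow_le_pow_left₀ (by norm_num) (by norm_num) h1

lemma VV_le {T : ℝ} (hT : 10 ^ 12 ≤ T) : VV T ≤ Real.log T * T ^ (1 / 4 : ℝ) := by
  have hT0 : 0 < T := by linarith
  have hl := log_ge (by linarith : (1000 : ℝ) ≤ T)
  unfold VV
  have h1 : (T / (2 * Real.pi)) ^ (1 / 4 : ℝ) ≤ T ^ (1 / 4 : ℝ) := by
    apply Real.rpow_le_rpow (by positivity) _ (by norm_num)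
    have := Real.pi_gt_three
    rw [div_le_iff₀ (by positivity)]
    nlinarith
  have h2 : (1 : ℝ) ≤ T ^ (1 / 4 : ℝ) := Real.one_le_rpow (by linarith) (by norm_num)
  nlinarith

/-- orders near the fourth moment -/
theorem near_two (k T : ℝ) (hk : 2 ≤ k) (hT : 1000 ≤ T) (h : (k - 2) * Real.log T ≤ 7 / 5) :
    M k T < T * Real.log T ^ (k ^ 2) := by
  have hN : S_NORM2 := Pool.Agent.TH692.FM2.norm2_all
    (Pool.Agent.TH615.J4553.hil_all Pool.Agent.TH158.FM.hil0_all)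
    (Pool.Agent.TH158.FM.lap_all Pool.Agent.TH360.J4554.div_all)
  have hR : S_RANGE2 := Pool.Agent.TH692.FM2.range2_all
  rw [M_eq]
  have hT0 : 0 < T := by linarith
  have hl : (69:ℝ) / 10 ≤ Real.log T := log_ge hT
  have hl0 : 0 < Real.log T := by linarith
  rcases le_total T (5 * 10 ^ 12) with h1 | h1
  · exact all_small hN hR k T hk hT h1
  · have h8 : (10:ℝ) ^ 8 ≤ T := by linarith
    have h12 : (10:ℝ) ^ 12 ≤ T := by linarith
    refine lt_of_le_of_lt (all_gen hN k T hk h8) ?_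
    have hV0 : 0 ≤ VV T := by unfold VV; positivity
    have e1 : VV T ^ (2 * k - 4) ≤ Real.log T ^ (2 * k - 4) * Real.exp (7 / 10) := by
      calc VV T ^ (2 * k - 4) ≤ (Real.log T * T ^ (1 / 4 : ℝ)) ^ (2 * k - 4) :=
            Real.rpow_le_rpow hV0 (VV_le h12) (by linarith)
        _ = Real.log T ^ (2 * k - 4) * (T ^ (1 / 4 : ℝ)) ^ (2 * k - 4) :=
            Real.mul_rpow hl0.le (by positivity)
        _ ≤ Real.log T ^ (2 * k - 4) * Real.exp (7 / 10) := by
            have e2 : (T ^ (1 / 4 : ℝ)) ^ (2 * k - 4) ≤ Real.exp (7 / 10) := by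
              rw [← Real.rpow_mul hT0.le, Real.rpow_def_of_pos hT0]
              apply Real.exp_le_exp.mpr
              nlinarith
            gcongr
    have e3 : Real.log T ^ 4 * Real.log T ^ (2 * k - 4) ≤ Real.log T ^ (k ^ 2) := by
      have : Real.log T ^ 4 = Real.log T ^ (4 : ℝ) := by norm_cast
      rw [this, ← Real.rpow_add hl0]
      apply Real.rpow_le_rpow_of_exponent_le (by linarith)
      nlinarith
    have hp : 0 < T * Real.log T ^ (k ^ 2) := by positivity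
    calc 4799 / 10000 * (T * Real.log T ^ 4 * VV T ^ (2 * k - 4))
        ≤ 4799 / 10000 * (T * Real.log T ^ 4 * (Real.log T ^ (2 * k - 4) * (208 / 100))) := by
          gcongr
          refine e1.trans ?_
          gcongr
          exact exp_seven_tenths
      _ = (4799 / 10000 * (208 / 100)) * (T * (Real.log T ^ 4 * Real.log T ^ (2 * k - 4))) := by ring
      _ ≤ (4799 / 10000 * (208 / 100)) * (T * Real.log T ^ (k ^ 2)) := by gcongr
      _ < T * Real.log T ^ (k ^ 2) := by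
          have : (4799 / 10000 * (208 / 100) : ℝ) < 1 := by norm_num
          nlinarith

lemma MM_two (T : ℝ) : MM 2 T = ∫ t in (0:ℝ)..T, ‖riemannZeta (pt (1 / 2) t)‖ ^ 4 := by
  unfold MM
  congr 1
  funext t
  norm_num

/-- Q2 for every `T ≥ 1000` and `2 ≤ k ≤ 2 + 7 / (5 log T)` (so for `k = 2` and every `T`), and the
fourth moment with constants `4 / 5` (all `T ≥ 1000`) and `12 / 25` (`T ≥ 10^8`) -/
theorem result :
    (∀ k T : ℝ, 2 ≤ k → 1000 ≤ T → k ≤ 2 + 7 / (5 * Real.log T) →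
      M k T < T * Real.log T ^ (k ^ 2)) ∧
    (∀ T : ℝ, 1000 ≤ T → M 2 T ≤ 4 / 5 * (T * Real.log T ^ 4)) ∧
    (∀ T : ℝ, 10 ^ 8 ≤ T → M 2 T ≤ 12 / 25 * (T * Real.log T ^ 4)) := by
  refine ⟨fun k T hk hT h => ?_, fun T hT => ?_, fun T hT => ?_⟩
  · have hl : (69:ℝ) / 10 ≤ Real.log T := log_ge hT
    apply near_two k T hk hT
    have e : (7 : ℝ) / (5 * Real.log T) * Real.log T = 7 / 5 := by field_simp
    nlinarith
  · rw [M_eq, MM_two]
    exact fourth_all T hT
  · have hN : S_NORM2 := Pool.Agent.TH692.FM2.norm2_all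
      (Pool.Agent.TH615.J4553.hil_all Pool.Agent.TH158.FM.hil0_all)
      (Pool.Agent.TH158.FM.lap_all Pool.Agent.TH360.J4554.div_all)
    rw [M_eq, MM_two]
    have hl : (69:ℝ) / 10 ≤ Real.log T := log_ge (by linarith)
    have hp : 0 ≤ T * Real.log T ^ 4 := by positivity
    refine (fourth2_all hN T hT).trans ?_
    nlinarith

end Pool.Agent.Results.MP_3d0d30_nt.AllHeightsNearTwo
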