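import Pool.Agent.Q255.MK.Max
import Pool.Agent.Q137.MK.SUP
import Pool.Agent.Q137.MK.FUB
import Pool.Agent.Q153.MK.Sq
import Pool.Agent.Q153.MK.D2
import Pool.Agent.Q153.MK.Dkb

/-!
# The moment inequality of all orders for almost every twist of zeta

Q2 asks for `∫_0^T |ζ(1/2+it)|^(2k) dt ≤ T (log T)^(k^2)` for all `k ≥ 2`.  Here `ζ(1/2+it)` is replaced by the
sum `Z(t) = ∑_{n ≤ t} f(n) n^(-1/2-it)` (which for `f = 1` is `ζ(1/2+it) + O(t^(-1/2))`), where `f` is a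
unimodular completely multiplicative function.  For almost every `f` there is `T₀` such that for all
`T ≥ T₀` the inequality holds, with the leading constant `1`, for ALL integers `k ≥ 2` and for all real
`k ≥ 2 (log log T)^(1/2)` at once; moreover there is a bound of the right size uniformly in all integers
`k ≥ 1`, and the maximum and the level sets obey the bounds predicted for zeta by Farmer, Gonek and Hughes.
-/

set_option autoImplicit false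

open MeasureTheory Finset

namespace Pool.Agent.Results.MP_3d0d30_nt.AlmostEveryTwist

/-- The uniform distribution on the angles `ω 0, ω 1, ω 2, …` (independent, uniform on the circle `ℝ/ℤ`). -/
noncomputable def uniform : Measure (ℕ → UnitAddCircle) :=
  Measure.infinitePi fun _ => (volume : Measure UnitAddCircle)

/-- The completely multiplicative function with the value `exp(2 π i ω_p)` at the prime `p`. -/
noncomputable def twist (ω : ℕ → UnitAddCircle) (n : ℕ) : ℂ :=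
  ∏ p ∈ n.primeFactors, ((ω p).toCircle : ℂ) ^ n.factorization p

/-- `Z(t) = ∑_{1 ≤ n ≤ t} f(n) n^(-1/2 - i t)`. -/
noncomputable def Z (ω : ℕ → UnitAddCircle) (t : ℝ) : ℂ :=
  ∑ n ∈ Icc 1 ⌊t⌋₊, twist ω n * (n : ℂ) ^ (-(1 / 2 + t * Complex.I) : ℂ)

/-- `exp (v (log T log log T)^(1/2))`. -/
noncomputable def size (v T : ℝ) : ℝ := Real.exp (v * Real.sqrt (Real.log T * Real.log (Real.log T)))

/-- For almost every `ω`: (1) there is `T₀` such that for all `T ≥ T₀` the moments over `[0, T]` satisfy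
(a) `∫ |Z|^(2k) ≤ T (log T)^(k^2)` for all integers `k ≥ 2`; (b) the same for all real
`k ≥ 2 (log log T)^(1/2)`; (c) `∫ |Z|^(2k) ≤ T (e^2 (1 + log T / k))^(k^2)` for all integers `k ≥ 1`;
(2) for all `ε > 0` there is `T₀` such that for all `T ≥ T₀`: `|Z| ≤ size (1/√2 + ε) T` on `[0, T]`, and
for all `v ≥ 0` the measure of the `t ∈ (0, T]` with `|Z(t)| ≥ size v T` is at most `T^(1 - 2 v^2 + ε)`. -/
theorem result : ∀ᵐ ω ∂uniform,
    (∃ T₀ : ℝ, 3 ≤ T₀ ∧ ∀ T : ℝ, T₀ ≤ T →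
      (∀ k : ℕ, 2 ≤ k → ∫ t in (0 : ℝ)..T, ‖Z ω t‖ ^ (2 * k) ≤ T * Real.log T ^ (k ^ 2)) ∧
      (∀ k : ℝ, 2 * Real.sqrt (Real.log (Real.log T)) ≤ k →
        ∫ t in (0 : ℝ)..T, ‖Z ω t‖ ^ (2 * k) ≤ T * Real.log T ^ (k ^ 2)) ∧
      (∀ k : ℕ, 1 ≤ k → ∫ t in (0 : ℝ)..T, ‖Z ω t‖ ^ (2 * k) ≤
        T * (Real.exp 2 * (1 + Real.log T / k)) ^ (k ^ 2))) ∧
    (∀ ε : ℝ, 0 < ε → ∃ T₀ : ℝ, 3 ≤ T₀ ∧ ∀ T : ℝ, T₀ ≤ T →
      (∀ t : ℝ, 0 ≤ t → t ≤ T → ‖Z ω t‖ ≤ size (1 / Real.sqrt 2 + ε) T) ∧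
      (∀ v : ℝ, 0 ≤ v →
        volume.real {t : ℝ | 0 < t ∧ t ≤ T ∧ size v T ≤ ‖Z ω t‖} ≤ T ^ (1 - 2 * v ^ 2 + ε))) := by
  have h1 := Pool.Agent.Q255.MK.ints Pool.Agent.Q153.MK.sq Pool.Agent.Q153.MK.d2 Pool.Agent.Q153.MK.dkb
    Pool.Agent.Q137.MK.fub
  have h2 := Pool.Agent.Q255.MK.max_as Pool.Agent.Q153.MK.sq Pool.Agent.Q137.MK.sup
  filter_upwards [h1, h2] with ω hω1 hω2
  obtain ⟨T₁, hT13, hT₁⟩ := hω1
  have hb : ∃ T₀ : ℝ, 3 ≤ T₀ ∧ ∀ T : ℝ, T₀ ≤ T →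
    ∀ k : ℕ, 1 ≤ k → ∫ t in (0 : ℝ)..T, ‖Z ω t‖ ^ (2 * k) ≤ T * Pool.Agent.Q255.MK.bs T k ^ (k ^ 2) :=
    ⟨T₁, hT13, fun T hT k hk => (hT₁ T hT k hk).1⟩
  obtain ⟨T₂, hT23, hT₂⟩ := Pool.Agent.Q255.MK.reals Pool.Agent.Q137.MK.hol hb
  refine ⟨⟨max T₁ T₂, le_max_of_le_left hT13, fun T hT => ⟨fun k hk => ?_, fun k hk => ?_, fun k hk => ?_⟩⟩,
    fun ε hε => ?_⟩
  · exact (hT₁ T ((le_max_left _ _).trans hT) k (by omega)).2 hk
  · exact hT₂ T ((le_max_right _ _).trans hT) k hk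
  · exact (hT₁ T ((le_max_left _ _).trans hT) k hk).1
  · obtain ⟨T₃, hT33, hT₃⟩ := hω2 ε hε
    obtain ⟨T₄, hT43, hT₄⟩ := Pool.Agent.Q255.MK.level hb hω2
      (show 0 < min ε 1 from lt_min hε one_pos) (min_le_right _ _)
    refine ⟨max T₃ T₄, le_max_of_le_left hT33, fun T hT => ⟨?_, fun v hv => ?_⟩⟩
    · exact hT₃ T ((le_max_left _ _).trans hT)
    · have h3 := hT₄ T ((le_max_right _ _).trans hT) v hv
      refine le_trans h3 ?_
      refine Real.rpow_le_rpow_of_exponent_le ?_ ?_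
      · have := (le_max_left T₃ T₄).trans hT
        linarith
      · have := min_le_left ε 1
        linarith

end Pool.Agent.Results.MP_3d0d30_nt.AlmostEveryTwist
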