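import Pool.Agent.Q63.RZ.Ba5

/-!
# The inequality of Bernstein and Szego for the moments of zeta, and the slope of `log |ζ|`

For every real order `β ≥ 1`, every window at height `T` and every angle `θ`, the moment of
`cos θ ζ + sin θ (2 i / log T) (ζ' + (log T / 2) ζ)` on the critical line (the second function is
`2 / log T` times the derivative of Hardy's function, up to `O(|ζ| / log T)` and a common factor of
modulus one) is at most `1 + ε` times the moment of zeta.  Averaged over `θ` this bounds the moment of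
the envelope with the sharp constant, and it bounds the part of the moment which comes from the points
where `log |ζ|` has a large slope.
-/

set_option autoImplicit false

open MeasureTheory Filter Set

namespace Pool.Agent.Results.MP_3d0d30_nt.BernsteinSzego

noncomputable section

/-- the point `1/2 + it` -/
def pt (t : ℝ) : ℂ := 1 / 2 + t * Complex.I

/-- the Gaussian window of width `U` at height `T` -/
def w (T U t : ℝ) : ℝ := Real.exp (-((t - T) / U) ^ 2)

/-- the density of the moment of order `β` -/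
def dens (β T U t : ℝ) : ℝ := ‖riemannZeta (pt t)‖ ^ β * w T U t

/-- the moment of order `β` -/
def M (β T U : ℝ) : ℝ := ∫ t : ℝ, dens β T U t

/-- the derivative of `log |ζ(1/2 + it)|` with respect to `t` -/
def slope (t : ℝ) : ℝ := deriv (fun s : ℝ => Real.log ‖riemannZeta (pt s)‖) t

/-- the combination of zeta and the derivative of Hardy's function, with angle `θ` -/
def X (T θ t : ℝ) : ℂ :=
  Real.cos θ * riemannZeta (pt t) + Real.sin θ * (2 * Complex.I / Real.log T) *
    (deriv riemannZeta (pt t) + Real.log T / 2 * riemannZeta (pt t))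

theorem pt_eq (t : ℝ) : Q97.BS.pt t = pt t := by
  unfold Q97.BS.pt pt
  norm_num

theorem pt_ne (t : ℝ) : pt t ≠ 1 := by
  rw [← pt_eq]
  exact Q97.BS.pt_ne t

theorem slope_eq {t : ℝ} (h : riemannZeta (pt t) ≠ 0) : slope t = Q63.RZ.sl t := by
  have h1 : HasDerivAt (fun s : ℝ => riemannZeta (pt s)) (deriv riemannZeta (pt t) * Complex.I) t := by
    have h2 : HasDerivAt riemannZeta (deriv riemannZeta (pt t)) (pt t) :=
      (differentiableAt_riemannZeta (pt_ne t)).hasDerivAt
    have h3 : HasDerivAt pt Complex.I t := by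
      unfold pt
      have h4 : HasDerivAt (fun s : ℝ => (s : ℂ)) 1 t := by
        simpa using (hasDerivAt_id t).ofReal_comp
      have h5 := (h4.mul_const Complex.I).const_add (1 / 2 : ℂ)
      rw [one_mul] at h5
      exact h5
    exact HasDerivAt.comp (h₂ := riemannZeta) (h := pt) t h2 h3
  have hn : ‖riemannZeta (pt t)‖ ≠ 0 := norm_ne_zero_iff.2 h
  have h6 := h1.norm_sq
  have h7 := (h6.log (pow_ne_zero 2 hn)).const_mul (1 / 2 : ℝ)
  have e1 : (fun s : ℝ => Real.log ‖riemannZeta (pt s)‖) =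
      fun s : ℝ => 1 / 2 * Real.log (‖riemannZeta (pt s)‖ ^ 2) := by
    funext s
    rw [Real.log_pow]
    push_cast
    ring
  unfold slope
  rw [e1, h7.deriv]
  unfold Q63.RZ.sl
  rw [pt_eq]
  set z := riemannZeta (pt t) with hz
  set d := deriv riemannZeta (pt t) with hd
  have e2 : inner ℝ z (d * Complex.I) = z.re * (-d.im) + z.im * d.re := by
    rw [Complex.inner]
    simp [Complex.mul_re]
    ring
  have e3 : ‖z‖ ^ 2 = Complex.normSq z := (Complex.normSq_eq_norm_sq z).symm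
  have hn2 : Complex.normSq z ≠ 0 := by rw [← e3]; positivity
  rw [e2, e3, Complex.div_im]
  field_simp
  ring

theorem dens_eq (β T U t : ℝ) : Q97.BS.aR β T U t = dens β T U t := by
  unfold dens w Q97.BS.aR Q97.MM.wt
  rw [pt_eq]

theorem M_eq (β T U : ℝ) : Q97.BS.MI β T U = M β T U := by
  unfold Q97.BS.MI M
  exact integral_congr_ae (Eventually.of_forall fun t => dens_eq β T U t)

theorem X_eq (T θ t : ℝ) : Q63.RZ.xz T θ t = X T θ t := by
  unfold Q63.RZ.xz X Q97.BS.hh
  rw [pt_eq]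
  push_cast
  ring

theorem env_eq {β : ℝ} (hβ : 1 ≤ β) (T U t : ℝ) : Q63.RZ.eR β T U t =
    (1 + (2 / Real.log T * slope t) ^ 2) ^ (β / 2) * dens β T U t := by
  unfold Q63.RZ.eR dens w Q97.MM.wt
  rw [pt_eq]
  by_cases h : riemannZeta (pt t) = 0
  · rw [h, norm_zero, Real.zero_rpow (by linarith)]
    ring
  · rw [slope_eq h]
    ring

/-- **The inequality of Bernstein and Szego for the moments of zeta.** -/
theorem result (β : ℝ) (hβ : 1 ≤ β) (ε : ℝ) (hε : 0 < ε) :
    ∃ T₀ : ℝ, ∀ T U : ℝ, T₀ ≤ T → 1 ≤ U → U ≤ T / Real.log T →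
      (Integrable (dens β T U) ∧ 0 < M β T U) ∧
      (∀ θ : ℝ, Integrable (fun t => ‖X T θ t‖ ^ β * w T U t) ∧
        ∫ t : ℝ, ‖X T θ t‖ ^ β * w T U t ≤ (1 + ε) * M β T U) ∧
      (Integrable (fun t => (1 + (2 / Real.log T * slope t) ^ 2) ^ (β / 2) * dens β T U t) ∧
        ∫ t : ℝ, (1 + (2 / Real.log T * slope t) ^ 2) ^ (β / 2) * dens β T U t ≤
          (1 + ε) * (2 * Real.pi / ∫ x in (0 : ℝ)..(2 * Real.pi), |Real.cos x| ^ β) * M β T U) ∧
      (∀ v : ℝ, 0 ≤ v →
        ∫ t in {t : ℝ | riemannZeta (pt t) ≠ 0 ∧ v * (Real.log T / 2) ≤ slope t}, dens β T U t ≤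
          (1 + ε) * (1 + v ^ 2) ^ (-(β / 2)) * M β T U ∧
        ∫ t in {t : ℝ | riemannZeta (pt t) ≠ 0 ∧ slope t ≤ -(v * (Real.log T / 2))}, dens β T U t ≤
          (1 + ε) * (1 + v ^ 2) ^ (-(β / 2)) * M β T U) := by
  have hβ0 : 0 < β := by linarith
  obtain ⟨c, hc, hlow⟩ := Q97.BS.MI_lower hβ0
  have hev := (((Q63.RZ.bsz hβ hε).and (Q63.RZ.envelope hβ hε)).and
    ((Q63.RZ.law hβ hε).and hlow)).and (eventually_ge_atTop (3 : ℝ))
  obtain ⟨T₀, hT₀⟩ := eventually_atTop.1 hev
  refine ⟨T₀, fun T U hT hU1 hU2 => ?_⟩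
  obtain ⟨⟨⟨h1, h2⟩, h3, h4⟩, h5⟩ := hT₀ T hT
  have hA : Q97.MM.Adm T U := ⟨h5, hU1, hU2⟩
  have hT0 : 0 < T := by linarith
  have edens : Q97.BS.aR β T U = dens β T U := funext fun t => dens_eq β T U t
  refine ⟨⟨?_, ?_⟩, fun θ => ⟨?_, ?_⟩, ⟨?_, ?_⟩, fun v hv => ⟨?_, ?_⟩⟩
  · rw [← edens]
    exact Q97.BS.aR_int hβ0 hA
  · rw [← M_eq]
    exact lt_of_lt_of_le (by positivity) (h4 U hA)
  · have h6 := Q63.RZ.xR_int hβ0 hA θ
    have e : (fun t => ‖X T θ t‖ ^ β * w T U t) = Q63.RZ.xR β T U θ := by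
      funext t
      rw [← X_eq]
      rfl
    rw [e]
    exact h6
  · have h6 := h1 U hA θ
    have e : (fun t => ‖X T θ t‖ ^ β * w T U t) = Q63.RZ.xR β T U θ := by
      funext t
      rw [← X_eq]
      rfl
    rw [e, ← M_eq]
    exact h6
  · have e : (fun t => (1 + (2 / Real.log T * slope t) ^ 2) ^ (β / 2) * dens β T U t) =
        Q63.RZ.eR β T U := funext fun t => (env_eq hβ T U t).symm
    rw [e]
    exact (h2 U hA).1
  · have e : (fun t => (1 + (2 / Real.log T * slope t) ^ 2) ^ (β / 2) * dens β T U t) =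
        Q63.RZ.eR β T U := funext fun t => (env_eq hβ T U t).symm
    rw [e, ← M_eq]
    exact (h2 U hA).2
  · have e : {t : ℝ | riemannZeta (pt t) ≠ 0 ∧ v * (Real.log T / 2) ≤ slope t} =
        {t : ℝ | riemannZeta (Q97.BS.pt t) ≠ 0 ∧ v * (Real.log T / 2) ≤ Q63.RZ.sl t} := by
      ext t
      simp only [mem_setOf_eq, pt_eq]
      refine and_congr_right fun h => ?_
      rw [slope_eq h]
    rw [e, ← edens, ← M_eq]
    exact (h3 U hA v hv).1
  · have e : {t : ℝ | riemannZeta (pt t) ≠ 0 ∧ slope t ≤ -(v * (Real.log T / 2))} =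
        {t : ℝ | riemannZeta (Q97.BS.pt t) ≠ 0 ∧ Q63.RZ.sl t ≤ -(v * (Real.log T / 2))} := by
      ext t
      simp only [mem_setOf_eq, pt_eq]
      refine and_congr_right fun h => ?_
      rw [slope_eq h]
    rw [e, ← edens, ← M_eq]
    exact (h3 U hA v hv).2

end

end Pool.Agent.Results.MP_3d0d30_nt.BernsteinSzego
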