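import Pool.Agent.Q97.UM.Base16
import Pool.Agent.Q97.UM.Coh4
import Pool.Agent.Q97.UM.IsoF

set_option autoImplicit false

/-!
# MP_3d0d30_nt: the moments of zeta near its isolated zeros

No hypothesis is made. For every real `k` consider the simple zeros `1/2 + iγ`, `T < γ ≤ 2T`, at distance at least `d / log T` from all the other
nontrivial zeros, with `|ζ'(1/2 + iγ)| = (log T)^(k + 1)` and with the mean value of `log |ζ(1/2 + it)|` over `|t - γ| ≤ 1 / log T` equal to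
`k log log T`, both up to `A √(log log T)` in the logarithm. There are at least `T (log T)^(1 - k²) exp (-C √(log log T))` such zeros, the sum of
`|ζ'(1/2 + iγ)|^(2k)` over them is at least `T (log T)^((k+1)²) exp (-C √(log log T))`, and the integral of `|ζ(1/2 + it)|^(2k)` over the points
at distance at most `1 / log T` from their ordinates is at least `T (log T)^(k²) exp (-C √(log log T))`: the expected order of the full moment.
-/

namespace Pool.Agent.Results.MP_3d0d30_nt.MomentsNearIsolatedZeros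

open Filter Topology MeasureTheory Complex

noncomputable section

/-- the mean value of `log |ζ(1/2 + it)|` over `|t - γ| ≤ 1 / log T` -/
def W (T γ : ℝ) : ℝ := Real.log T / 2 * ∫ t in (γ - 1 / Real.log T)..(γ + 1 / Real.log T), Real.log ‖riemannZeta (1 / 2 + t * I)‖

/-- the numbers `γ` in `(T, 2T]` for which `1/2 + iγ` is a simple zero of zeta all of whose distances from the other nontrivial zeros are at
least `d / log T` -/
def isolated (d T : ℝ) : Set ℝ :=
  {γ : ℝ | T < γ ∧ γ ≤ 2 * T ∧ riemannZeta (1 / 2 + γ * I) = 0 ∧ deriv riemannZeta (1 / 2 + γ * I) ≠ 0 ∧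
    ∀ ρ : ℂ, riemannZeta ρ = 0 → 0 < ρ.re → ρ.re < 1 → ρ ≠ 1 / 2 + γ * I → d / Real.log T ≤ ‖ρ - (1 / 2 + γ * I)‖}

/-- those with `|ζ'(1/2 + iγ)|` near `(log T)^(k + 1)` and `|ζ|` near `(log T)^k` around `γ` -/
def level (d k A T : ℝ) : Set ℝ :=
  {γ ∈ isolated d T | |Real.log ‖deriv riemannZeta (1 / 2 + γ * I)‖ - (k + 1) * Real.log (Real.log T)| ≤ A * Real.sqrt (Real.log (Real.log T)) ∧
    |W T γ - k * Real.log (Real.log T)| ≤ A * Real.sqrt (Real.log (Real.log T))}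

/-- the points at distance at most `1 / log T` from them -/
def near (d k A T : ℝ) : Set ℝ := {t : ℝ | ∃ γ ∈ level d k A T, |t - γ| ≤ 1 / Real.log T}

theorem inj : Function.Injective fun t : ℝ => (1 / 2 + t * I : ℂ) := by
  intro a b hab
  have := congrArg Complex.im hab
  simpa using this

lemma point (γ : ℝ) : (1 / 2 + γ * I : ℂ).re = 1 / 2 ∧ (1 / 2 + γ * I : ℂ).im = γ := by
  constructor <;> simp

lemma level_image (d k A T : ℝ) (h : 16 ≤ T) (hd : d ≤ 1) : ((Pool.Agent.Q97.UM.Giso d k A T : Finset ℂ) : Set ℂ) =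
    (fun γ : ℝ => (1 / 2 + γ * I : ℂ)) '' level d k A T := by
  ext s
  unfold Pool.Agent.Q97.UM.Giso
  simp only [Finset.coe_filter, Set.mem_ofPred_eq, Pool.Agent.Q97.UM.mem_ZI_iff h hd, Set.mem_image]
  constructor
  · rintro ⟨⟨h1, h2, h3, h4, h5, h6⟩, h7, h8⟩
    have hs : (1 / 2 + s.im * I : ℂ) = s := by
      apply Complex.ext
      · simp [h1]
      · simp
    refine ⟨s.im, ⟨⟨h2, h3, ?_, ?_, ?_⟩, ?_, ?_⟩, hs⟩
    · rw [hs]; exact h4
    · rw [hs]; exact h5
    · rw [hs]; exact h6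
    · rw [hs]; exact h7
    · exact h8
  · rintro ⟨γ, ⟨⟨h1, h2, h3, h4, h5⟩, h7, h8⟩, rfl⟩
    refine ⟨⟨(point γ).1, by rw [(point γ).2]; exact h1, by rw [(point γ).2]; exact h2, h3, h4, h5⟩, h7, ?_⟩
    rw [(point γ).2]
    exact h8

theorem level_finite (d k A T : ℝ) (h : 16 ≤ T) (hd : d ≤ 1) : (level d k A T).Finite := by
  refine Set.Finite.of_finite_image ?_ inj.injOn
  rw [← level_image d k A T h hd]
  exact (Pool.Agent.Q97.UM.Giso d k A T).finite_toSet

theorem result : ∃ d : ℝ, 0 < d ∧ ∀ k : ℝ, ∃ A C T₀ : ℝ, ∀ T : ℝ, T₀ ≤ T →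
    (level d k A T).Finite ∧
    T * Real.log T ^ (1 - k ^ 2) * Real.exp (-C * Real.sqrt (Real.log (Real.log T))) ≤ ((level d k A T).ncard : ℝ) ∧
    T * Real.log T ^ ((k + 1) ^ 2) * Real.exp (-C * Real.sqrt (Real.log (Real.log T))) ≤
      ∑ᶠ γ ∈ level d k A T, ‖deriv riemannZeta (1 / 2 + γ * I)‖ ^ (2 * k) ∧
    ENNReal.ofReal (T * Real.log T ^ (k ^ 2) * Real.exp (-C * Real.sqrt (Real.log (Real.log T)))) ≤
      ∫⁻ t in near d k A T, ENNReal.ofReal (‖riemannZeta (1 / 2 + t * I)‖ ^ (2 * k)) := by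
  classical
  obtain ⟨d, hd, hd1, h⟩ := Pool.Agent.Q97.UM.iso_level Pool.Agent.Q97.UM.b_COH Pool.Agent.Q97.UM.b_CLW Pool.Agent.Q84.UM.t_DPM
  refine ⟨d, hd, fun k => ?_⟩
  obtain ⟨A, C, hA, hC, hk⟩ := h k
  obtain ⟨T₀, hT₀⟩ := eventually_atTop.1 (hk.and (eventually_ge_atTop (16 : ℝ)))
  refine ⟨A, C, T₀, fun T hT => ?_⟩
  obtain ⟨⟨h1, h2, h4⟩, h3⟩ := hT₀ T hT
  have hL : 0 < Real.log T := Real.log_pos (by linarith)
  have e1 : ∀ x : ℝ, T * Real.log T ^ x * Real.exp (-C * Real.sqrt (Real.log (Real.log T))) =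
      T * Real.exp (x * Real.log (Real.log T) - C * Real.sqrt (Real.log (Real.log T))) := by
    intro x
    rw [Real.rpow_def_of_pos hL, mul_assoc, ← Real.exp_add]
    congr 2
    ring
  rw [e1, e1, e1]
  have hfin := level_finite d k A T h3 hd1
  have himg := level_image d k A T h3 hd1
  refine ⟨hfin, ?_, ?_, ?_⟩
  · refine h1.trans (le_of_eq ?_)
    rw [← Set.ncard_image_of_injective _ inj, ← himg, Set.ncard_coe_finset]
  · refine h2.trans (le_of_eq ?_)
    rw [← finsum_mem_coe_finset, himg, finsum_mem_image inj.injOn]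
  · refine h4.trans ?_
    change ∫⁻ t in ⋃ s ∈ Pool.Agent.Q97.UM.Giso d k A T, Set.Ioc (s.im - 1 / Real.log T) (s.im + 1 / Real.log T),
        ENNReal.ofReal (‖riemannZeta (1 / 2 + t * I)‖ ^ (2 * k)) ≤ _
    apply lintegral_mono_set
    intro t ht
    rw [Set.mem_iUnion₂] at ht
    obtain ⟨s, hs, ht1, ht2⟩ := ht
    have hs' : s ∈ ((Pool.Agent.Q97.UM.Giso d k A T : Finset ℂ) : Set ℂ) := hs
    rw [himg] at hs'
    obtain ⟨γ, hγ, rfl⟩ := hs'
    rw [(point γ).2] at ht1 ht2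
    refine ⟨γ, hγ, ?_⟩
    rw [abs_le]
    constructor <;> linarith

end

end Pool.Agent.Results.MP_3d0d30_nt.MomentsNearIsolatedZeros
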